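import Pool.Agent.R772.BridgeU
import Pool.Agent.R772.Loc

/-!
Two-forms with nonnegative top power and corank at most two: the homotopy class of the nearby
nondegenerate forms (internal form).
-/

set_option autoImplicit false
set_option linter.unusedSectionVars false

open Set Filter Topology
open scoped Manifold ContDiff

noncomputable section

namespace Pool.Agent.K3h41.SYH

open Pool.Agent.Y501.SY
open Pool.Agent.R772
open Pool.Agent.R772.SYU (cla cla_cont cla_nonneg cla_le cla_zero cla_one)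

section

variable {d m : ℕ} {X : Type} [TopologicalSpace X] [ChartedSpace (E d) X]

/-- joined by a path of forms in `A` -/
def Jn (A : Form d X 2 → Prop) (τ w : Form d X 2) : Prop :=
  ∃ γ : ℝ → Form d X 2, ContFam γ ∧ γ 0 = τ ∧ γ 1 = w ∧ ∀ s : ℝ, 0 ≤ s → s ≤ 1 → A (γ s)

/-- positive forms -/
def Ps (vol : Top d m X) (τ : Form d X 2) : Prop := IsSmooth τ ∧ ∀ x, PosTop vol τ x

/-- weak forms -/
def Wk (vol : Top d m X) (σ : Form d X 2) : Prop :=
  IsSmooth σ ∧ (∀ x, NonnegTop vol σ x) ∧ ∀ x,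
    ∃ (τ : (TangentSpace (𝓡 d) x) [⋀^Fin 2]→L[ℝ] ℝ)
      (e : Fin (m + 1) × Fin 2 → TangentSpace (𝓡 d) x),
      Pool.Agent.R772.wedge (Fin.cons τ (fun _ : Fin m => σ x)) e ≠ 0

/-- paths of positive forms (for `s < 1`) ending at `σ` -/
def Df (vol : Top d m X) (τ σ : Form d X 2) : Prop :=
  ∃ γ : ℝ → Form d X 2, ContFam γ ∧ γ 0 = τ ∧ γ 1 = σ ∧ ∀ s : ℝ, 0 ≤ s → s < 1 → Ps vol (γ s)

/-- `σ` is a limit of forms homotopic to `τ` -/
def Lm (vol : Top d m X) (τ σ : Form d X 2) : Prop :=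
  ∃ (P : Type) (_ : TopologicalSpace P) (f : P → Form d X 2) (p₀ : P), ContFam f ∧ f p₀ = σ ∧
    p₀ ∈ closure {p | Jn (Ps vol) τ (f p)}

theorem Jn.left {A : Form d X 2 → Prop} {τ w : Form d X 2} (h : Jn A τ w) : A τ := by
  obtain ⟨γ, -, h0, -, h⟩ := h
  rw [← h0]
  exact h 0 le_rfl zero_le_one

theorem Jn.right {A : Form d X 2 → Prop} {τ w : Form d X 2} (h : Jn A τ w) : A w := by
  obtain ⟨γ, -, -, h1, h⟩ := h
  rw [← h1]
  exact h 1 zero_le_one le_rfl

theorem Jn.symm {A : Form d X 2 → Prop} {τ w : Form d X 2} (h : Jn A τ w) : Jn A w τ := by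
  obtain ⟨γ, c, h0, h1, h⟩ := h
  refine ⟨fun s => γ (1 - s), ContFam.comp c (continuous_const.sub continuous_id), ?_, ?_,
    fun s hs0 hs1 => h _ (by linarith) (by linarith)⟩
  · show γ (1 - 0) = w
    rw [sub_zero, h1]
  · show γ (1 - 1) = τ
    rw [sub_self, h0]

theorem PosTop.nonneg {vol : Top d m X} {τ : Form d X 2} {x : X} (h : PosTop vol τ x) :
    NonnegTop vol τ x := fun e he => (h e he).le

variable [IsManifold (𝓡 d) ∞ X]

theorem Jn.refl {A : Form d X 2 → Prop} (hA : ∀ τ, A τ → IsSmooth τ) {τ : Form d X 2}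
    (h : A τ) : Jn A τ τ :=
  ⟨fun _ => τ, IsSmooth.contFam (hA τ h), rfl, rfl, fun _ _ _ => h⟩

/-- concatenation of paths -/
theorem concat {γ₁ γ₂ : ℝ → Form d X 2} (c1 : ContFam γ₁) (c2 : ContFam γ₂)
    {w : Form d X 2} (hw : IsSmooth w) (h1 : γ₁ 1 = w) (h2 : γ₂ 0 = w) :
    ∃ γ : ℝ → Form d X 2, ContFam γ ∧ (∀ s : ℝ, s ≤ 1 / 2 → γ s = γ₁ (cla (2 * s))) ∧
      ∀ s : ℝ, 1 / 2 ≤ s → γ s = γ₂ (cla (2 * s - 1)) := by
  refine ⟨fun s => γ₁ (cla (2 * s)) + γ₂ (cla (2 * s - 1)) + (-1 : ℝ) • w, ?_,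
    fun s hs => ?_, fun s hs => ?_⟩
  · have k1 := ContFam.comp (Q := ℝ) c1 (c := fun s => cla (2 * s))
      (cla_cont.comp (continuous_const.mul continuous_id))
    have k2 := ContFam.comp (Q := ℝ) c2 (c := fun s => cla (2 * s - 1))
      (cla_cont.comp ((continuous_const.mul continuous_id).sub continuous_const))
    have k3 := (IsSmooth.contFam (P := ℝ) hw).smul
      (continuous_const : Continuous fun _ : ℝ => (-1 : ℝ))
    exact (k1.add k2).add k3
  · show γ₁ (cla (2 * s)) + γ₂ (cla (2 * s - 1)) + (-1 : ℝ) • w = γ₁ (cla (2 * s))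
    funext x
    have hn : (-1 : ℝ) • w x = -(w x) := neg_one_smul ℝ (w x)
    show γ₁ (cla (2 * s)) x + γ₂ (cla (2 * s - 1)) x + (-1 : ℝ) • w x = γ₁ (cla (2 * s)) x
    rw [cla_zero (s := 2 * s - 1) (by linarith), h2, hn, add_neg_cancel_right]
  · show γ₁ (cla (2 * s)) + γ₂ (cla (2 * s - 1)) + (-1 : ℝ) • w = γ₂ (cla (2 * s - 1))
    funext x
    have hn : (-1 : ℝ) • w x = -(w x) := neg_one_smul ℝ (w x)
    show γ₁ (cla (2 * s)) x + γ₂ (cla (2 * s - 1)) x + (-1 : ℝ) • w x = γ₂ (cla (2 * s - 1)) x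
    rw [cla_one (s := 2 * s) (by linarith), h1, hn, add_comm (w x), add_neg_cancel_right]

theorem Jn.trans {A : Form d X 2 → Prop} (hA : ∀ τ, A τ → IsSmooth τ) {τ w v : Form d X 2}
    (h1 : Jn A τ w) (h2 : Jn A w v) : Jn A τ v := by
  have hw := hA w h1.right
  obtain ⟨γ₁, c1, a1, b1, n1⟩ := h1
  obtain ⟨γ₂, c2, a2, b2, n2⟩ := h2
  obtain ⟨γ, c, e1, e2⟩ := concat c1 c2 hw b1 a2
  refine ⟨γ, c, ?_, ?_, fun s hs0 hs1 => ?_⟩
  · rw [e1 0 (by norm_num), cla_zero (by norm_num), a1]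
  · rw [e2 1 (by norm_num), cla_one (by norm_num), b2]
  · rcases le_total s (1 / 2) with h | h
    · rw [e1 s h]
      exact n1 _ (cla_nonneg _) (cla_le _)
    · rw [e2 s h]
      exact n2 _ (cla_nonneg _) (cla_le _)

theorem Ps.smooth {vol : Top d m X} {τ : Form d X 2} (h : Ps vol τ) : IsSmooth τ := h.1

/-- a homotopy followed by a deformation -/
theorem Df.of_jn {vol : Top d m X} {τ w σ : Form d X 2} (h1 : Jn (Ps vol) τ w)
    (h2 : Df vol w σ) : Df vol τ σ := by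
  have hw := h1.right.1
  obtain ⟨γ₁, c1, a1, b1, n1⟩ := h1
  obtain ⟨γ₂, c2, a2, b2, n2⟩ := h2
  obtain ⟨γ, c, e1, e2⟩ := concat c1 c2 hw b1 a2
  refine ⟨γ, c, ?_, ?_, fun s hs0 hs1 => ?_⟩
  · rw [e1 0 (by norm_num), cla_zero (by norm_num), a1]
  · rw [e2 1 (by norm_num), cla_one (by norm_num), b2]
  · rcases le_total s (1 / 2) with h | h
    · rw [e1 s h]
      exact n1 _ (cla_nonneg _) (cla_le _)
    · rw [e2 s h]
      refine n2 _ (cla_nonneg _) ?_
      unfold cla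
      exact max_lt one_pos (lt_of_le_of_lt (min_le_left _ _) (by linarith))

theorem Ps.wk {vol : Top d m X} (hvol : IsVol vol) {τ : Form d X 2} (h : Ps vol τ) :
    Wk vol τ := by
  refine ⟨h.1, fun x => PosTop.nonneg (h.2 x), fun x => ?_⟩
  obtain ⟨f, hf⟩ := hvol.frame x
  refine ⟨τ x, f, ?_⟩
  have k8 : (Fin.cons (τ x) (fun _ : Fin m => τ x) : Fin (m + 1) →
      (TangentSpace (𝓡 d) x) [⋀^Fin 2]→L[ℝ] ℝ) = fun _ => τ x := by
    funext i
    refine Fin.cases ?_ (fun i => ?_) i <;> simp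
  rw [k8]
  exact (h.2 x f hf).ne'

/-- positivity of `f p + t η` for `p` near `p₀` and small `t`, uniformly -/
theorem unifA [CompactSpace X] (hd : d = 2 * (m + 1)) {vol : Top d m X} (hvol : IsVol vol)
    {P : Type} [TopologicalSpace P] {f : P → Form d X 2} (hf : ContFam f)
    (hnn : ∀ p x, NonnegTop vol (f p) x) {η : Form d X 2} (hη : IsSmooth η) {p₀ : P}
    (hl : ∀ x, ¬ PosTop vol (f p₀) x → LinPos vol (f p₀) η x) :
    ∃ ε : ℝ, 0 < ε ∧ ∀ᶠ p in 𝓝 p₀, ∀ x, ∀ t : ℝ, 0 < t → t ≤ ε →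
      PosTop vol (f p + t • η) x := by
  have hηf := IsSmooth.contFam (P := P) hη
  have key : ∀ x : X, ∃ ε : ℝ, 0 < ε ∧ ∀ᶠ y in 𝓝 (p₀, x), ∀ t : ℝ, 0 < t → t ≤ ε →
      PosTop vol (f y.1 + t • η) y.2 := by
    intro x
    by_cases hx : PosTop vol (f p₀) x
    · obtain ⟨ε, hε, he⟩ := PosTop.fam hd hvol hf hηf (p₀ := p₀) hx
      exact ⟨ε, hε, he.mono fun y hy t h0 h1 => hy t (by rw [abs_of_pos h0]; exact h1)⟩
    · exact LinPos.topFam hd hvol hf hηf (fun p x e he => hnn p x e he) (hl x hx)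
  have h := isCompact_univ.induction_on (X := X) (s := univ)
    (p := fun S : Set X => ∃ ε : ℝ, 0 < ε ∧ ∀ᶠ p in 𝓝 p₀, ∀ x ∈ S, ∀ t : ℝ, 0 < t → t ≤ ε →
      PosTop vol (f p + t • η) x)
    ⟨1, one_pos, Eventually.of_forall fun p x hx => absurd hx (notMem_empty x)⟩
    (fun S T hST ⟨ε, hε, he⟩ => ⟨ε, hε, he.mono fun p hp x hx => hp x (hST hx)⟩)
    (fun S T ⟨ε, hε, he⟩ ⟨ε', hε', he'⟩ => ⟨min ε ε', lt_min hε hε', by
      filter_upwards [he, he'] with p hp hp' x hx t ht0 ht1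
      rcases hx with hx | hx
      · exact hp x hx t ht0 (ht1.trans (min_le_left _ _))
      · exact hp' x hx t ht0 (ht1.trans (min_le_right _ _))⟩)
    (fun x _ => by
      obtain ⟨ε, hε, he⟩ := key x
      rw [nhds_prod_eq, Filter.eventually_prod_iff] at he
      obtain ⟨pa, ha, pb, hb, hab⟩ := he
      refine ⟨{y | pb y}, mem_nhdsWithin_of_mem_nhds hb, ε, hε, ?_⟩
      filter_upwards [ha] with p hp y hy
      exact hab hp hy)
  obtain ⟨ε, hε, he⟩ := h
  exact ⟨ε, hε, he.mono fun p hp x => hp x (mem_univ x)⟩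

/-- admissible forms exist -/
theorem exists_eta [CompactSpace X] [T2Space X] (hd : d = 2 * (m + 1)) {vol : Top d m X}
    (hvol : IsVol vol) {σ : Form d X 2} (hσ : Wk vol σ) :
    ∃ η : Form d X 2, IsSmooth η ∧ ∀ x, ¬ PosTop vol σ x → LinPos vol σ η x := by
  classical
  obtain ⟨hs, hnn, hpow⟩ := hσ
  have hG := Pool.Agent.Y484.SY.t_GEN
  have hP := isCone_PK hd hvol hs hnn
  have hD : IsClosed {x | ¬ PosTop vol σ x} := by
    have : IsOpen {x | PosTop vol σ x} := by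
      rw [isOpen_iff_eventually]
      intro x hx
      exact PosTop.nhds hd hvol hs hx
    exact this.isClosed_compl
  have hsm : ∀ (u g h : X → ℝ), SmoothFun (d := d) u → SmoothFun (d := d) g →
      SmoothFun (d := d) h → IsSmooth (hdfdg (d := d) u g h) := fun u g h hu hg hh =>
    (hG d X u g h hu hg hh).2.1
  have hz1 : ∀ z ∈ {x | ¬ PosTop vol σ x}, ∃ (g : Fin d → X → ℝ) (B : Fin d → Fin d → ℝ)
      (χ : X → ℝ), (∀ j, SmoothFun (d := d) (g j)) ∧ SmoothFun (d := d) χ ∧ (∀ y, 0 ≤ χ y) ∧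
      0 < χ z ∧ ∀ y, χ y ≠ 0 → y ∈ {x | ¬ PosTop vol σ x} →
        PK vol σ y ((∑ j, ∑ k, B j k • dfdg (d := d) (g j) (g k) : Form d X 2) y) := by
    intro z hz
    obtain ⟨g, B, hg, hpos⟩ := LinPos.exists hd hvol (σ := σ) z (hpow z)
    have hts : IsSmooth (∑ j, ∑ k, B j k • dfdg (d := d) (g j) (g k)) := by
      refine IsSmooth.sum _ fun j _ => IsSmooth.sum _ fun k _ => IsSmooth.smul ?_ _
      have := hsm (fun _ => 1) (g j) (g k) (SmoothFun.const 1) (hg j) (hg k)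
      have h2 : hdfdg (d := d) (fun _ => (1 : ℝ)) (g j) (g k) = dfdg (g j) (g k) := by
        funext x; exact one_smul ℝ _
      rwa [h2] at this
    have hnear := hP.nhds hts hz hpos
    obtain ⟨f, hf⟩ := (SmoothBumpFunction.nhds_basis_support (I := 𝓡 d) hnear).ex_mem
    exact ⟨g, B, f, hg, f.contMDiff, fun y => f.nonneg, by rw [f.eq_one]; exact one_pos,
      fun y hy => hf (subset_tsupport _ hy)⟩
  choose! g B χ hg hχ hχ0 hχz hχt using hz1
  obtain ⟨t, htD, htc⟩ := hD.isCompact.elim_nhds_subcover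
    (fun z => {y | z ∈ {x | ¬ PosTop vol σ x} → 0 < χ z y})
    (fun z hz => by
      have := (isOpen_lt continuous_const (hχ z hz).continuous).mem_nhds (hχz z hz)
      filter_upwards [this] with y hy _ using hy)
  refine ⟨∑ z : ↥t, ∑ j, ∑ k, B z j k • hdfdg (d := d) (χ z) (g z j) (g z k),
    IsSmooth.sum _ fun z _ => IsSmooth.sum _ fun j _ => IsSmooth.sum _ fun k _ =>
      IsSmooth.smul (hsm _ _ _ (hχ z (htD z z.2)) (hg z (htD z z.2) j) (hg z (htD z z.2) k)) _,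
    fun x hx => ?_⟩
  have hform : (∑ z : ↥t, ∑ j, ∑ k, B z j k • hdfdg (d := d) (χ z) (g z j) (g z k) :
      Form d X 2) x = ∑ z : ↥t, χ z x •
        (∑ j, ∑ k, B z j k • dfdg (d := d) (g z j) (g z k) : Form d X 2) x := by
    rw [Finset.sum_apply]
    refine Finset.sum_congr rfl fun z _ => ?_
    rw [Finset.sum_apply, Finset.sum_apply, Finset.smul_sum]
    refine Finset.sum_congr rfl fun j _ => ?_
    rw [Finset.sum_apply, Finset.sum_apply, Finset.smul_sum]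
    refine Finset.sum_congr rfl fun k _ => ?_
    exact smul_comm (B z j k) (χ z x) (dfdg (d := d) (g z j) (g z k) x)
  have h1 := hP.sum (x := x) hx Finset.univ (fun z : ↥t => χ z x)
    (fun z : ↥t => (∑ j, ∑ k, B z j k • dfdg (d := d) (g z j) (g z k) : Form d X 2) x)
    (fun z _ => hχ0 _ (htD _ z.2) _)
    (fun z _ h => hχt z (htD _ z.2) x h hx) (by
      obtain ⟨z, hzt, hz⟩ := mem_iUnion₂.1 (htc hx)
      exact ⟨⟨z, hzt⟩, Finset.mem_univ _, hz (htD z hzt)⟩)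
  intro e he
  rw [hform]
  exact h1 e he

end

end Pool.Agent.K3h41.SYH
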