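import Pool.Agent.K3h41.SYH.Canon

/-!
Two-forms with nonnegative top power and corank at most two: the homotopy class of the nearby
nondegenerate forms (internal form), main theorem.
-/

set_option autoImplicit false
set_option linter.unusedSectionVars false

open Set Filter Topology
open scoped Manifold ContDiff

noncomputable section

namespace Pool.Agent.K3h41.SYH

open Pool.Agent.Y501.SY
open Pool.Agent.R772
open Pool.Agent.R772.SYU (cla cla_cont cla_nonneg cla_le cla_zero cla_one)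

section

variable {d m : ℕ} {X : Type} [TopologicalSpace X] [ChartedSpace (E d) X]
  [IsManifold (𝓡 d) ∞ X]

theorem ps_smooth {vol : Top d m X} : ∀ τ : Form d X 2, Ps vol τ → IsSmooth τ := fun _ h => h.1

/-- the path `σ + t η`, `t` from `a` to `b` -/
theorem jn_line {vol : Top d m X} {σ η : Form d X 2} (hσ : IsSmooth σ) (hη : IsSmooth η)
    {a b : ℝ} (h : ∀ s : ℝ, 0 ≤ s → s ≤ 1 → Ps vol (σ + ((1 - s) * a + s * b) • η)) :
    Jn (Ps vol) (σ + a • η) (σ + b • η) := by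
  refine ⟨fun s => σ + ((1 - s) * a + s * b) • η, ?_, ?_, ?_, h⟩
  · exact (IsSmooth.contFam (P := ℝ) hσ).add ((IsSmooth.contFam (P := ℝ) hη).smul
      (c := fun s : ℝ => (1 - s) * a + s * b) (by fun_prop))
  · show σ + ((1 - 0) * a + 0 * b) • η = σ + a • η
    congr 2
    ring
  · show σ + ((1 - 1) * a + 1 * b) • η = σ + b • η
    congr 2
    ring

/-- the path `σ + t η`, `t → 0` -/
theorem df_line {vol : Top d m X} {σ η : Form d X 2} (hσ : IsSmooth σ) (hη : IsSmooth η)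
    {a : ℝ} (ha : 0 < a) (h : ∀ t : ℝ, 0 < t → t ≤ a → Ps vol (σ + t • η)) :
    Df vol (σ + a • η) σ := by
  refine ⟨fun s => σ + ((1 - s) * a) • η, ?_, ?_, ?_, fun s hs0 hs1 => ?_⟩
  · exact (IsSmooth.contFam (P := ℝ) hσ).add ((IsSmooth.contFam (P := ℝ) hη).smul
      (c := fun s : ℝ => (1 - s) * a) (by fun_prop))
  · show σ + ((1 - 0) * a) • η = σ + a • η
    congr 2
    ring
  · funext x
    show σ x + ((1 - 1) * a) • η x = σ x
    rw [sub_self, zero_mul, zero_smul, add_zero]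
  · exact h _ (mul_pos (by linarith) ha) (by nlinarith)

variable [CompactSpace X]

/-- the resolutions `σ + t η` -/
theorem resolve (hd : d = 2 * (m + 1)) {vol : Top d m X} (hvol : IsVol vol)
    {σ : Form d X 2} (hσ : IsSmooth σ) (hnn : ∀ x, NonnegTop vol σ x) {η : Form d X 2}
    (hη : IsSmooth η) (hl : ∀ x, ¬ PosTop vol σ x → LinPos vol σ η x) :
    ∃ t₀ : ℝ, 0 < t₀ ∧ ∀ t : ℝ, 0 < t → t ≤ t₀ → Ps vol (σ + t • η) := by
  obtain ⟨ε, hε, he⟩ := unifA hd hvol (P := Unit) (f := fun _ => σ)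
    (IsSmooth.contFam (P := Unit) hσ) (fun _ x => hnn x) hη (p₀ := ()) hl
  exact ⟨ε, hε, fun t h0 h1 => ⟨hσ.add (hη.smul t), fun x => he.self_of_nhds x t h0 h1⟩⟩

/-- the homotopy class is determined by the limit -/
theorem Lm.jn (hd : d = 2 * (m + 1)) {vol : Top d m X} (hvol : IsVol vol)
    {σ : Form d X 2} (hσ : IsSmooth σ) (hnn : ∀ x, NonnegTop vol σ x) {η : Form d X 2}
    (hη : IsSmooth η) (hl : ∀ x, ¬ PosTop vol σ x → LinPos vol σ η x) {t₀ : ℝ} (ht₀ : 0 < t₀)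
    (hres : ∀ t : ℝ, 0 < t → t ≤ t₀ → Ps vol (σ + t • η)) {τ : Form d X 2} (h : Lm vol τ σ) :
    Jn (Ps vol) τ (σ + t₀ • η) := by
  obtain ⟨P, tP, f, p₀, hf, hp₀, hcl⟩ := h
  let P' : Type := {p : P // p ∈ {p | p = p₀ ∨ Jn (Ps vol) τ (f p)}}
  let f' : P' → Form d X 2 := fun p => f p.1
  let q₀ : P' := ⟨p₀, Or.inl rfl⟩
  have hf' : ContFam f' := ContFam.comp hf continuous_subtype_val
  have hf0 : f' q₀ = σ := hp₀
  have hnn' : ∀ p x, NonnegTop vol (f' p) x := by
    rintro ⟨p, hp | hp⟩ x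
    · show NonnegTop vol (f p) x
      rw [hp, hp₀]
      exact hnn x
    · exact PosTop.nonneg (hp.right.2 x)
  obtain ⟨ε, hε, he⟩ := unifA hd hvol hf' hnn' hη (p₀ := q₀) (by rw [hf0]; exact hl)
  set a := min ε t₀ with ha
  have ha0 : 0 < a := lt_min hε ht₀
  let F : P' × ℝ → Form d X 2 := fun q => ((1 - q.2) • f' q.1 + q.2 • σ) + a • η
  have hF : ContFam F := by
    have k1 : ContFam (fun q : P' × ℝ => (1 - q.2) • f' q.1) :=
      (ContFam.comp (Q := P' × ℝ) hf' continuous_fst).smul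
        (c := fun q : P' × ℝ => 1 - q.2) (continuous_const.sub continuous_snd)
    have k2 : ContFam (fun q : P' × ℝ => q.2 • σ) :=
      (IsSmooth.contFam (P := P' × ℝ) hσ).smul (c := fun q : P' × ℝ => q.2) continuous_snd
    have k3 : ContFam (fun _ : P' × ℝ => a • η) :=
      (IsSmooth.contFam (P := P' × ℝ) hη).smul (c := fun _ : P' × ℝ => a) continuous_const
    exact (k1.add k2).add k3
  have hopen := isOpen_pos hd hvol hF
  have hF0 : ∀ u : ℝ, F (q₀, u) = σ + a • η := by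
    intro u
    show ((1 - u) • f' q₀ + u • σ) + a • η = σ + a • η
    rw [hf0]
    congr 1
    funext x
    show (1 - u) • σ x + u • σ x = σ x
    rw [← add_smul, sub_add_cancel, one_smul]
  have h2 : ∀ᶠ p in 𝓝 q₀, ∀ u ∈ Icc (0 : ℝ) 1, ∀ x, PosTop vol (F (p, u)) x := by
    refine isCompact_Icc.eventually_forall_of_forall_eventually
      (P := fun p u => ∀ x, PosTop vol (F (p, u)) x) fun u _ => ?_
    refine hopen.mem_nhds ?_
    show ∀ x, PosTop vol (F (q₀, u)) x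
    rw [hF0]
    exact (hres a ha0 (min_le_right _ _)).2
  obtain ⟨U, hU, hUE⟩ := (mem_nhds_subtype _ q₀ _).1 (he.and h2)
  obtain ⟨p, hpU, hpS⟩ := (mem_closure_iff_nhds.1 hcl) U hU
  have hpJ : Jn (Ps vol) τ (f p) := hpS
  have hE := hUE (show (⟨p, Or.inr hpJ⟩ : P') ∈ Subtype.val ⁻¹' U from hpU)
  obtain ⟨e1, e2⟩ := hE
  have hfp : Ps vol (f p) := hpJ.right
  -- first path
  have j1 : Jn (Ps vol) (f p + (0 : ℝ) • η) (f p + a • η) := by
    refine jn_line hfp.1 hη fun s hs0 hs1 => ?_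
    refine ⟨hfp.1.add (hη.smul _), fun x => ?_⟩
    rcases hs0.eq_or_lt with h0 | h0
    · have e : (f p + ((1 - s) * 0 + s * a) • η : Form d X 2) = f p := by
        funext x
        show f p x + ((1 - s) * 0 + s * a) • η x = f p x
        rw [← h0, mul_zero, zero_mul, add_zero, zero_smul, add_zero]
      rw [e]
      exact hfp.2 x
    · refine e1 x _ ?_ ?_
      · have := mul_pos h0 ha0
        linarith
      · have h4 : a ≤ ε := min_le_left _ _
        nlinarith
  have e0 : (f p + (0 : ℝ) • η : Form d X 2) = f p := by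
    funext x
    show f p x + (0 : ℝ) • η x = f p x
    rw [zero_smul, add_zero]
  rw [e0] at j1
  -- second path
  have j2 : Jn (Ps vol) (f p + a • η) (σ + a • η) := by
    refine ⟨fun u => F (⟨p, Or.inr hpJ⟩, u), ?_, ?_, ?_, fun u hu0 hu1 => ⟨?_, e2 u ⟨hu0, hu1⟩⟩⟩
    · exact ContFam.comp hF (Continuous.prodMk continuous_const continuous_id)
    · show ((1 - 0 : ℝ) • f p + (0 : ℝ) • σ) + a • η = f p + a • η
      congr 1
      funext x
      show (1 - 0 : ℝ) • f p x + (0 : ℝ) • σ x = f p x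
      rw [sub_zero, one_smul, zero_smul, add_zero]
    · show ((1 - 1 : ℝ) • f p + (1 : ℝ) • σ) + a • η = σ + a • η
      congr 1
      funext x
      show (1 - 1 : ℝ) • f p x + (1 : ℝ) • σ x = σ x
      rw [sub_self, one_smul, zero_smul, zero_add]
    · exact ((hfp.1.smul _).add (hσ.smul _)).add (hη.smul _)
  -- third path
  have j3 : Jn (Ps vol) (σ + a • η) (σ + t₀ • η) := by
    refine jn_line hσ hη fun s hs0 hs1 => hres _ ?_ ?_
    · have k1 : 0 ≤ (1 - s) * a := mul_nonneg (by linarith) ha0.le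
      have k2 : 0 ≤ s * t₀ := mul_nonneg hs0 ht₀.le
      rcases hs0.eq_or_lt with h0 | h0
      · rw [← h0]
        linarith
      · have := mul_pos h0 ht₀
        linarith
    · have h4 : a ≤ t₀ := min_le_right _ _
      nlinarith
  exact ((hpJ.trans ps_smooth j1).trans ps_smooth j2).trans ps_smooth j3

/-- deformations are limits -/
theorem Df.lm {vol : Top d m X} {τ σ : Form d X 2} (h : Df vol τ σ) : Lm vol τ σ := by
  obtain ⟨γ, c, h0, h1, h⟩ := h
  refine ⟨ℝ, inferInstance, γ, 1, c, h1, ?_⟩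
  have h2 : Ico (0 : ℝ) 1 ⊆ {p | Jn (Ps vol) τ (γ p)} := by
    intro s hs
    refine ⟨fun r => γ (r * s), ContFam.comp c (continuous_id.mul continuous_const), ?_, ?_,
      fun r hr0 hr1 => h _ (mul_nonneg hr0 hs.1) ?_⟩
    · show γ (0 * s) = τ
      rw [zero_mul, h0]
    · show γ (1 * s) = γ s
      rw [one_mul]
    · have := mul_le_mul_of_nonneg_right hr1 hs.1
      have := hs.2
      linarith
  refine closure_mono h2 ?_
  rw [closure_Ico (by norm_num : (0 : ℝ) ≠ 1)]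
  exact ⟨zero_le_one, le_rfl⟩

/-- two forms which deform into the same weak form are homotopic -/
theorem Df.unique [T2Space X] (hd : d = 2 * (m + 1)) {vol : Top d m X} (hvol : IsVol vol)
    {σ : Form d X 2} (hσ : Wk vol σ) {τ w : Form d X 2} (h1 : Lm vol τ σ) (h2 : Lm vol w σ) :
    Jn (Ps vol) τ w := by
  obtain ⟨η, hη, hl⟩ := exists_eta hd hvol hσ
  obtain ⟨t₀, ht₀, hres⟩ := resolve hd hvol hσ.1 hσ.2.1 hη hl
  exact (Lm.jn hd hvol hσ.1 hσ.2.1 hη hl ht₀ hres h1).trans ps_smooth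
    (Lm.jn hd hvol hσ.1 hσ.2.1 hη hl ht₀ hres h2).symm

/-- the class does not change along paths of weak forms -/
theorem Jn.df [T2Space X] (hd : d = 2 * (m + 1)) {vol : Top d m X} (hvol : IsVol vol)
    {τ σ : Form d X 2} (hτ : Ps vol τ) (h : Jn (Wk vol) τ σ) : Df vol τ σ := by
  obtain ⟨γ, c, h0, h1, h⟩ := h
  let g : ℝ → Form d X 2 := fun s => γ (cla s)
  have hg : ContFam g := ContFam.comp c cla_cont
  have hgW : ∀ s, Wk vol (g s) := fun s => h _ (cla_nonneg s) (cla_le s)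
  have hloc : IsLocallyConstant (fun s : ℝ => Df vol τ (g s)) := by
    rw [IsLocallyConstant.iff_eventually_eq]
    intro s₀
    obtain ⟨η, hη, hl⟩ := exists_eta hd hvol (hgW s₀)
    obtain ⟨ε, hε, he⟩ := unifA hd hvol hg (fun s x => (hgW s).2.1 x) hη (p₀ := s₀) hl
    obtain ⟨δ, hδ, hball⟩ := Metric.eventually_nhds_iff.1 he
    refine Metric.eventually_nhds_iff.2 ⟨δ, hδ, fun s hs => ?_⟩
    have hP : ∀ r : ℝ, dist r s₀ < δ → ∀ t : ℝ, 0 < t → t ≤ ε → Ps vol (g r + t • η) :=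
      fun r hr t ht0 ht1 => ⟨(hgW r).1.add (hη.smul t), fun x => hball hr x t ht0 ht1⟩
    have hD : ∀ r : ℝ, dist r s₀ < δ → Df vol (g r + ε • η) (g r) := fun r hr =>
      df_line (hgW r).1 hη hε (hP r hr)
    have hJ : Jn (Ps vol) (g s₀ + ε • η) (g s + ε • η) := by
      refine ⟨fun r => g (s₀ + r * (s - s₀)) + ε • η, ?_, ?_, ?_, fun r hr0 hr1 => ?_⟩
      · exact (ContFam.comp hg (c := fun r : ℝ => s₀ + r * (s - s₀)) (by fun_prop)).add
          ((IsSmooth.contFam (P := ℝ) hη).smul (c := fun _ : ℝ => ε) continuous_const)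
      · show g (s₀ + 0 * (s - s₀)) + ε • η = _
        rw [zero_mul, add_zero]
      · show g (s₀ + 1 * (s - s₀)) + ε • η = _
        rw [one_mul, add_sub_cancel]
      · refine hP _ ?_ ε hε le_rfl
        rw [Real.dist_eq] at hs ⊢
        have e : s₀ + r * (s - s₀) - s₀ = r * (s - s₀) := by ring
        rw [e, abs_mul, abs_of_nonneg hr0]
        exact lt_of_le_of_lt (mul_le_of_le_one_left (abs_nonneg _) hr1) hs
    have hs₀ : dist s₀ s₀ < δ := by rw [dist_self]; exact hδ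
    refine propext ⟨fun hh => ?_, fun hh => ?_⟩
    · have k1 := Df.unique hd hvol (hgW s) hh.lm (hD s hs).lm
      exact Df.of_jn (k1.trans ps_smooth hJ.symm) (hD s₀ hs₀)
    · have k1 := Df.unique hd hvol (hgW s₀) hh.lm (hD s₀ hs₀).lm
      exact Df.of_jn (k1.trans ps_smooth hJ) (hD s hs)
  have h2 := hloc.apply_eq_of_preconnectedSpace 0 1
  have e0 : g 0 = τ := by
    show γ (cla 0) = τ
    rw [cla_zero le_rfl, h0]
  have e1 : g 1 = σ := by
    show γ (cla 1) = σ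
    rw [cla_one le_rfl, h1]
  have h3 : Df vol τ (g 0) := by
    rw [e0]
    exact ⟨fun _ => τ, IsSmooth.contFam hτ.1, rfl, rfl, fun _ _ _ => hτ⟩
  have h4 : Df vol τ (g 1) := h2 ▸ h3
  rwa [e1] at h4

/-- the main theorem -/
theorem canon [T2Space X] (hd : d = 2 * (m + 1)) {vol : Top d m X} (hvol : IsVol vol)
    {σ : Form d X 2} (hσ : Wk vol σ) : ∃ τ₀ : Form d X 2, Ps vol τ₀ ∧ Df vol τ₀ σ ∧
      ∀ τ : Form d X 2, Ps vol τ → List.TFAE [Jn (Ps vol) τ τ₀, Df vol τ σ, Jn (Wk vol) τ σ,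
        Lm vol τ σ] := by
  obtain ⟨η, hη, hl⟩ := exists_eta hd hvol hσ
  obtain ⟨t₀, ht₀, hres⟩ := resolve hd hvol hσ.1 hσ.2.1 hη hl
  have hD : Df vol (σ + t₀ • η) σ := df_line hσ.1 hη ht₀ hres
  refine ⟨σ + t₀ • η, hres t₀ ht₀ le_rfl, hD, fun τ hτ => ?_⟩
  tfae_have 1 → 2 := fun h => Df.of_jn h hD
  tfae_have 2 → 3 := by
    rintro ⟨γ, c, h0, h1, h⟩
    refine ⟨γ, c, h0, h1, fun s hs0 hs1 => ?_⟩
    rcases hs1.eq_or_lt with h2 | h2
    · rw [h2, h1]
      exact hσ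
    · exact (h s hs0 h2).wk hvol
  tfae_have 3 → 2 := Jn.df hd hvol hτ
  tfae_have 2 → 4 := Df.lm
  tfae_have 4 → 1 := Lm.jn hd hvol hσ.1 hσ.2.1 hη hl ht₀ hres
  tfae_finish

end

end Pool.Agent.K3h41.SYH
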