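import Pool.Agent.R772.PubU

/-!
Two-forms with nonnegative top power and corank at most two, and homotopies of nondegenerate
forms: the definitions used in the statement.
-/

set_option autoImplicit false

open Set Filter Topology
open scoped Manifold ContDiff

noncomputable section

namespace Pool.Agent.K3h41.SYHP

open Pool.Agent.Y501.SYP
open Pool.Agent.R772.SYK
open Pool.Agent.R772.SYF

section

variable {V : Type} [NormedAddCommGroup V] [NormedSpace ℝ V]
  {X : Type} [TopologicalSpace X] [ChartedSpace V X] {m : ℕ}

/-- A smooth two-form with positive top power, that is, nondegenerate and compatible with the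
orientation. -/
structure Positive (vol : TopForm V X m) (τ : Form V X 2) : Prop where
  smooth : IsSmooth τ
  pos : ∀ (x : X) (e : Fam V m x), 0 < vol x e → 0 < top m τ x e

/-- A smooth two-form `σ` such that `σ ^ (m + 1)` is nonnegative and `σ ^ m` has no zeros. -/
structure Weak (vol : TopForm V X m) (σ : Form V X 2) : Prop where
  smooth : IsSmooth σ
  nonneg : TopNonneg vol σ
  pow : ∀ x : X, PowNe m σ x

/-- `τ` and `w` are joined by a continuous path of forms with the property `A`. -/
def PathIn (A : Form V X 2 → Prop) (τ w : Form V X 2) : Prop :=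
  ∃ γ : ℝ → Form V X 2, ContFamily γ ∧ γ 0 = τ ∧ γ 1 = w ∧ ∀ s : ℝ, 0 ≤ s → s ≤ 1 → A (γ s)

/-- There is a continuous path from `τ` to `σ`; its forms, except for `σ`, are positive. -/
def DeformsTo (vol : TopForm V X m) (τ σ : Form V X 2) : Prop :=
  ∃ γ : ℝ → Form V X 2, ContFamily γ ∧ γ 0 = τ ∧ γ 1 = σ ∧
    ∀ s : ℝ, 0 ≤ s → s < 1 → Positive vol (γ s)

/-- `σ` is the `C⁰`-limit of a sequence of forms which are homotopic to `τ` through positive
forms. -/
def IsLimit (vol : TopForm V X m) (τ σ : Form V X 2) : Prop :=
  ∃ u : ℕ → Form V X 2, (∀ k, PathIn (Positive vol) τ (u k)) ∧ ∀ z : X,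
    TendstoLocallyUniformlyOn (fun k p => pb (chartAt V z).symm (u k) p)
      (pb (chartAt V z).symm σ) atTop (chartAt V z).target

end

end Pool.Agent.K3h41.SYHP
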