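import Pool.Agent.K3h41.SYH.Seq
import Pool.Agent.K3h41.SYH.Pub
import Pool.Agent.K3h41.SYA.Main

/-!
The homotopy class of the nondegenerate forms near a form with nonnegative top power and corank
at most two, in terms of the public definitions.
-/

set_option autoImplicit false
set_option linter.unusedSectionVars false

open Set Filter Topology
open scoped Manifold ContDiff

noncomputable section

namespace Pool.Agent.K3h41.SYHP

open Pool.Agent.Y501.SYP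
open Pool.Agent.Y501
open Pool.Agent.R772.SYK
open Pool.Agent.R772.SYG
open Pool.Agent.R772.SYF
open Pool.Agent.R772.SYD
open Pool.Agent.R772.SYM
open Pool.Agent.K3h41.SYA
open Pool.Agent.K3h41

section

variable {m d : ℕ} {X : Type} [TopologicalSpace X] [ChartedSpace (ES d) X]

attribute [local instance] Pool.Agent.Y501.SYP.cs
attribute [local instance] Pool.Agent.Y501.SYP.mf

theorem PathIn.mono {A B : Form (ES d) X 2 → Prop} (hAB : ∀ τ, A τ → B τ)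
    {τ w : Form (ES d) X 2} (h : PathIn A τ w) : PathIn B τ w := by
  obtain ⟨γ, c, h0, h1, h⟩ := h
  exact ⟨γ, c, h0, h1, fun s hs0 hs1 => hAB _ (h s hs0 hs1)⟩

theorem positive_iff {vol : TopForm (ES d) X m} (τ : Form (ES d) X 2) :
    Positive vol τ ↔ SYH.Ps (d := d) (m := m) (X := X) (toTop vol) τ :=
  ⟨fun h => ⟨(smooth_iff τ).1 h.smooth, fun x e he => h.pos x e he⟩,
    fun h => ⟨(smooth_iff τ).2 h.1, fun x e he => h.2 x e he⟩⟩

theorem weak_iff {vol : TopForm (ES d) X m} (τ : Form (ES d) X 2) :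
    Weak vol τ ↔ SYH.Wk (d := d) (m := m) (X := X) (toTop vol) τ :=
  ⟨fun h => ⟨(smooth_iff τ).1 h.smooth, fun x e he => h.nonneg x e he, fun x => h.pow x⟩,
    fun h => ⟨(smooth_iff τ).2 h.1, fun x e he => h.2.1 x e he, fun x => h.2.2 x⟩⟩

theorem pathIn_iff {A : Form (ES d) X 2 → Prop} {B : SY.Form d X 2 → Prop}
    (hAB : ∀ τ : Form (ES d) X 2, A τ ↔ B τ) (τ w : Form (ES d) X 2) :
    PathIn A τ w ↔ SYH.Jn (d := d) (X := X) B τ w := by
  constructor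
  · rintro ⟨γ, c, h0, h1, h⟩
    exact ⟨γ, c, h0, h1, fun s hs0 hs1 => (hAB _).1 (h s hs0 hs1)⟩
  · rintro ⟨γ, c, h0, h1, h⟩
    exact ⟨γ, c, h0, h1, fun s hs0 hs1 => (hAB _).2 (h s hs0 hs1)⟩

theorem deforms_iff {vol : TopForm (ES d) X m} (τ σ : Form (ES d) X 2) :
    DeformsTo vol τ σ ↔ SYH.Df (d := d) (m := m) (X := X) (toTop vol) τ σ := by
  constructor
  · rintro ⟨γ, c, h0, h1, h⟩
    exact ⟨γ, c, h0, h1, fun s hs0 hs1 => (positive_iff _).1 (h s hs0 hs1)⟩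
  · rintro ⟨γ, c, h0, h1, h⟩
    exact ⟨γ, c, h0, h1, fun s hs0 hs1 => (positive_iff _).2 (h s hs0 hs1)⟩

theorem limit_iff {vol : TopForm (ES d) X m} (τ σ : Form (ES d) X 2) :
    IsLimit vol τ σ ↔ SYH.Sq (d := d) (m := m) (X := X) (toTop vol) τ σ := by
  constructor
  · rintro ⟨u, hu, h⟩
    exact ⟨u, fun k => (pathIn_iff positive_iff τ (u k)).1 (hu k), h⟩
  · rintro ⟨u, hu, h⟩
    exact ⟨u, fun k => (pathIn_iff positive_iff τ (u k)).2 (hu k), h⟩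

variable [IsManifold 𝓘(ℝ, ES d) ∞ X] [CompactSpace X] [T2Space X]

/-- the canonical class -/
theorem canonical (hd : d = 2 * (m + 1)) {vol : TopForm (ES d) X m} (hvol : IsVolume vol)
    {σ : Form (ES d) X 2} (hσ : Weak vol σ) :
    ∃ τ₀ : Form (ES d) X 2, Positive vol τ₀ ∧ DeformsTo vol τ₀ σ ∧
      ∀ τ : Form (ES d) X 2, Positive vol τ → List.TFAE [PathIn (Positive vol) τ τ₀,
        DeformsTo vol τ σ, PathIn (Weak vol) τ σ, IsLimit vol τ σ] := by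
  obtain ⟨τ₀, h1, h2, h3⟩ := SYH.canonSeq (d := d) (m := m) (X := X) hd (vol := toTop vol)
    (vol_of hvol) ((weak_iff σ).1 hσ)
  refine ⟨τ₀, (positive_iff τ₀).2 h1, (deforms_iff τ₀ σ).2 h2, fun τ hτ => ?_⟩
  have h := h3 τ ((positive_iff τ).1 hτ)
  tfae_have 1 ↔ 2 := by
    rw [pathIn_iff positive_iff τ τ₀, deforms_iff τ σ]
    exact h.out 0 1
  tfae_have 2 ↔ 3 := by
    rw [deforms_iff τ σ, pathIn_iff weak_iff τ σ]
    exact h.out 1 2
  tfae_have 2 ↔ 4 := by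
    rw [deforms_iff τ σ, limit_iff τ σ]
    exact h.out 1 3
  tfae_finish

/-- the path `σ + t θ`, `t → 0` -/
theorem deforms_comb {vol : TopForm (ES d) X m} {σ θ : Form (ES d) X 2} (hσ : IsSmooth σ)
    (hθ : IsSmooth θ) {c : ℝ} (h : ∀ t : ℝ, 0 < t → t ≤ c → Positive vol (comb σ t θ)) {t : ℝ}
    (ht0 : 0 < t) (ht1 : t ≤ c) : DeformsTo vol (comb σ t θ) σ :=
  (deforms_iff _ σ).2 (SYH.df_line (d := d) (m := m) (X := X) (vol := toTop vol)
    ((smooth_iff σ).1 hσ) ((smooth_iff θ).1 hθ) ht0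
    fun s hs0 hs1 => (positive_iff _).1 (h s hs0 (hs1.trans ht1)))

/-- the resolutions -/
theorem resolutions (hd : d = 2 * (m + 1)) {vol : TopForm (ES d) X m} (hvol : IsVolume vol)
    {σ : Form (ES d) X 2} (hσ : Weak vol σ) {θ : Form (ES d) X 2} (hθ : IsSmooth θ) {c : ℝ}
    (h : ∀ t : ℝ, 0 < t → t ≤ c → Positive vol (comb σ t θ)) {t : ℝ}
    (ht0 : 0 < t) (ht1 : t ≤ c) {τ : Form (ES d) X 2} (hτ : Positive vol τ) :
    PathIn (Positive vol) τ (comb σ t θ) ↔ PathIn (Weak vol) τ σ := by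
  obtain ⟨τ₀, h1, h2, h3⟩ := canonical hd hvol hσ
  have k1 := ((h3 _ (h t ht0 ht1)).out 0 1).2 (deforms_comb hσ.smooth hθ h ht0 ht1)
  have k2 : PathIn (Weak vol) τ σ ↔ PathIn (Positive vol) τ τ₀ := (h3 τ hτ).out 2 0
  rw [k2]
  rw [pathIn_iff positive_iff] at k1 ⊢
  rw [pathIn_iff positive_iff]
  exact ⟨fun h => h.trans SYH.ps_smooth k1, fun h => h.trans SYH.ps_smooth k1.symm⟩

theorem cons_self (σ : Form (ES d) X 2) (x : X) :
    (Fin.cons (σ x) (fun _ : Fin m => σ x) : Fin (m + 1) →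
      (TangentSpace 𝓘(ℝ, ES d) x) [⋀^Fin 2]→L[ℝ] ℝ) = fun _ => σ x := by
  funext i
  refine Fin.cases ?_ (fun i => ?_) i <;> simp

/-- closed forms with an admissible form are weak -/
theorem weak_of {vol : TopForm (ES d) X m} (hvol : IsVolume vol) {σ η : Form (ES d) X 2}
    (hσ : IsSmooth σ) (hnn : TopNonneg vol σ) (hp : PosOnDeg vol σ η) : Weak vol σ := by
  refine ⟨hσ, hnn, fun x => ?_⟩
  by_cases hx : x ∈ Deg m σ
  · obtain ⟨f, hf⟩ := (vol_of hvol).frame x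
    exact ⟨η x, f, (hp x hx f hf).ne'⟩
  · have h1 : ∃ e : Fam (ES d) m x, top m σ x e ≠ 0 := by
      by_contra hcon
      push Not at hcon
      exact hx hcon
    obtain ⟨e, he⟩ := h1
    refine ⟨σ x, e, ?_⟩
    unfold mixed
    rw [cons_self σ x]
    exact he

/-- the criterion -/
theorem criterion (hd : d = 2 * (m + 1)) {vol : TopForm (ES d) X m} (hvol : IsVolume vol)
    {σ ζ : Form (ES d) X 2} (hσ : IsClosed2 σ) (hζ : IsClosed2 ζ) (hnn : TopNonneg vol σ)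
    {τ : Form (ES d) X 2} (hτ : Positive vol τ) :
    (∃ (α : Form (ES d) X 1) (ρ : Form (ES d) X 2) (c : ℝ), ExactPair α ρ ∧
        SymplecticUpTo vol σ (addF ζ ρ) c ∧
        ∀ t : ℝ, 0 < t → t ≤ c → PathIn (Positive vol) τ (comb σ t (addF ζ ρ))) ↔
      PathIn (Weak vol) τ σ ∧ ∀ C : Set X, TestSet vol σ C → AvgTest vol σ ζ C := by
  have h : (∃ (α : Form (ES d) X 1) (ρ : Form (ES d) X 2) (c : ℝ), ExactPair α ρ ∧
      SymplecticUpTo vol σ (addF ζ ρ) c) ↔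
      ∀ C : Set X, TestSet vol σ C → AvgTest vol σ ζ C :=
    (SYA.tfae hd vol hvol σ ζ hσ hζ hnn).out 0 1
  have hsm : ∀ (α : Form (ES d) X 1) (ρ : Form (ES d) X 2), ExactPair α ρ →
      IsSmooth (addF ζ ρ) := fun α ρ hαρ =>
    (smooth_iff _).2 (((smooth_iff ζ).1 hζ.smooth).add ((smooth_iff ρ).1 hαρ.smooth_d))
  have hW : (∃ (α : Form (ES d) X 1) (ρ : Form (ES d) X 2) (c : ℝ), ExactPair α ρ ∧
      SymplecticUpTo vol σ (addF ζ ρ) c) → Weak vol σ := by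
    intro hh
    obtain ⟨α, ρ, hαρ, hp⟩ := (posOnDeg_sympl hd hvol hσ hζ hnn).1 hh
    exact weak_of hvol hσ.smooth hnn hp
  have hpos : ∀ (θ : Form (ES d) X 2) (c : ℝ), SymplecticUpTo vol σ θ c →
      ∀ t : ℝ, 0 < t → t ≤ c → Positive vol (comb σ t θ) := fun θ c hc t ht0 ht1 =>
    ⟨(hc.symp t ht0 ht1).closed.smooth, (hc.symp t ht0 ht1).pos⟩
  constructor
  · rintro ⟨α, ρ, c, hαρ, hc, hh⟩
    have hw := hW ⟨α, ρ, c, hαρ, hc⟩
    refine ⟨?_, h.1 ⟨α, ρ, c, hαρ, hc⟩⟩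
    exact (resolutions hd hvol hw (hsm α ρ hαρ) (hpos _ c hc) hc.pos le_rfl hτ).1
      (hh c hc.pos le_rfl)
  · rintro ⟨h1, h2⟩
    obtain ⟨α, ρ, c, hαρ, hc⟩ := h.2 h2
    have hw := hW ⟨α, ρ, c, hαρ, hc⟩
    exact ⟨α, ρ, c, hαρ, hc, fun t ht0 ht1 =>
      (resolutions hd hvol hw (hsm α ρ hαρ) (hpos _ c hc) ht0 ht1 hτ).2 h1⟩

end

end Pool.Agent.K3h41.SYHP
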