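import Pool.Agent.K3h41.SYH.Canon2

/-!
Limits of sequences of positive forms.
-/

set_option autoImplicit false
set_option linter.unusedSectionVars false

open Set Filter Topology
open scoped Manifold ContDiff

noncomputable section

namespace Pool.Agent.K3h41.SYH

open Pool.Agent.Y501.SY
open Pool.Agent.R772

section

variable {d m : ℕ} {X : Type} [TopologicalSpace X] [ChartedSpace (E d) X]
  [IsManifold (𝓡 d) ∞ X]

/-- `σ` is the limit of a sequence of forms homotopic to `τ` -/
def Sq (vol : Top d m X) (τ σ : Form d X 2) : Prop :=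
  ∃ u : ℕ → Form d X 2, (∀ k, Jn (Ps vol) τ (u k)) ∧ ∀ z : X,
    TendstoLocallyUniformlyOn (fun k p => pb (chartAt (E d) z).symm (u k) p)
      (pb (chartAt (E d) z).symm σ) atTop (chartAt (E d) z).target

/-- the family given by a sequence and its limit -/
def fam (u : ℕ → Form d X 2) (σ : Form d X 2) (p : OnePoint ℕ) : Form d X 2 :=
  p.elim σ u

theorem fam_cont {u : ℕ → Form d X 2} {σ : Form d X 2} (hu : ∀ k, IsSmooth (u k))
    (hσ : IsSmooth σ) (h : ∀ z : X,
      TendstoLocallyUniformlyOn (fun k p => pb (chartAt (E d) z).symm (u k) p)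
        (pb (chartAt (E d) z).symm σ) atTop (chartAt (E d) z).target) :
    ContFam (fam u σ) := by
  intro z
  rintro ⟨p, y⟩ ⟨-, hy⟩
  have hy' : y ∈ (chartAt (E d) z).target := hy
  have ht : (chartAt (E d) z).target ∈ 𝓝 y := (chartAt (E d) z).open_target.mem_nhds hy'
  refine ContinuousAt.continuousWithinAt ?_
  induction p using OnePoint.rec with
  | infty =>
    have hc : ContinuousAt (pb (chartAt (E d) z).symm σ) y :=
      (IsSmooth.contChart hσ z).continuousAt ht
    rw [Metric.continuousAt_iff']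
    intro ε hε
    have hε2 : 0 < ε / 2 := half_pos hε
    obtain ⟨t, htn, hev⟩ := (Metric.tendstoLocallyUniformlyOn_iff.1 (h z)) (ε / 2) hε2 y hy'
    rw [(chartAt (E d) z).open_target.nhdsWithin_eq hy'] at htn
    obtain ⟨K, hK⟩ := eventually_atTop.1 hev
    have hU : ((fun k : ℕ => (k : OnePoint ℕ)) '' (Iio K))ᶜ ∈ 𝓝 (OnePoint.infty : OnePoint ℕ) := by
      refine IsOpen.mem_nhds (OnePoint.isOpen_compl_image_coe.2
        ⟨isClosed_discrete _, (finite_Iio K).isCompact⟩) ?_
      rintro ⟨k, -, hk⟩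
      exact OnePoint.coe_ne_infty k hk
    have hc2 := (Metric.continuousAt_iff'.1 hc) (ε / 2) hε2
    filter_upwards [prod_mem_nhds hU (Filter.inter_mem htn hc2)] with q hq
    obtain ⟨hq1, hq2, hq3⟩ := hq
    have hq3' : dist (pb (chartAt (E d) z).symm σ q.2) (pb (chartAt (E d) z).symm σ y) < ε / 2 :=
      hq3
    obtain ⟨a, b⟩ := q
    induction a using OnePoint.rec with
    | infty =>
      show dist (pb (chartAt (E d) z).symm σ b) (pb (chartAt (E d) z).symm σ y) < ε
      exact hq3'.trans (half_lt_self hε)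
    | coe k =>
      have hk : K ≤ k := by
        by_contra hlt
        exact hq1 ⟨k, lt_of_not_ge hlt, rfl⟩
      have h5 := hK k hk b hq2
      show dist (pb (chartAt (E d) z).symm (u k) b) (pb (chartAt (E d) z).symm σ y) < ε
      calc dist (pb (chartAt (E d) z).symm (u k) b) (pb (chartAt (E d) z).symm σ y)
          ≤ dist (pb (chartAt (E d) z).symm (u k) b) (pb (chartAt (E d) z).symm σ b) +
            dist (pb (chartAt (E d) z).symm σ b) (pb (chartAt (E d) z).symm σ y) :=
              dist_triangle _ _ _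
        _ < ε / 2 + ε / 2 := by
              refine add_lt_add ?_ hq3'
              rw [dist_comm]
              exact h5
        _ = ε := add_halves ε
  | coe k =>
    have hc : ContinuousAt (pb (chartAt (E d) z).symm (u k)) y :=
      (IsSmooth.contChart (hu k) z).continuousAt ht
    have hc2 : ContinuousAt (fun q : OnePoint ℕ × E d => pb (chartAt (E d) z).symm (u k) q.2)
        ((k : OnePoint ℕ), y) := ContinuousAt.comp (f := fun q : OnePoint ℕ × E d => q.2)
      (x := ((k : OnePoint ℕ), y)) hc continuousAt_snd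
    refine hc2.congr ?_
    have hU : {((k : ℕ) : OnePoint ℕ)} ∈ 𝓝 ((k : ℕ) : OnePoint ℕ) := by
      have : IsOpen ((fun k : ℕ => (k : OnePoint ℕ)) '' {k}) :=
        OnePoint.isOpen_image_coe.2 (isOpen_discrete _)
      rw [image_singleton] at this
      exact this.mem_nhds rfl
    filter_upwards [prod_mem_nhds hU univ_mem] with q hq
    have hq1 : q.1 = ((k : ℕ) : OnePoint ℕ) := hq.1
    show pb (chartAt (E d) z).symm (u k) q.2 = pb (chartAt (E d) z).symm (fam u σ q.1) q.2
    rw [hq1]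
    rfl

theorem Sq.lm {vol : Top d m X} {τ σ : Form d X 2} (hσ : IsSmooth σ) (h : Sq vol τ σ) :
    Lm vol τ σ := by
  obtain ⟨u, hu, h⟩ := h
  refine ⟨OnePoint ℕ, inferInstance, fam u σ, OnePoint.infty,
    fam_cont (fun k => (hu k).right.1) hσ h, rfl, ?_⟩
  have h2 : range ((↑) : ℕ → OnePoint ℕ) ⊆ {p | Jn (Ps vol) τ (fam u σ p)} := by
    rintro _ ⟨k, rfl⟩
    exact hu k
  exact closure_mono h2 (OnePoint.denseRange_coe _)

theorem Df.sq {vol : Top d m X} {τ σ : Form d X 2} (h : Df vol τ σ) : Sq vol τ σ := by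
  obtain ⟨γ, c, h0, h1, h⟩ := h
  let s : ℕ → ℝ := fun k => 1 - 1 / ((k : ℝ) + 1)
  have hs0 : ∀ k, 0 ≤ s k := by
    intro k
    have h2 : (1 : ℝ) / ((k : ℝ) + 1) ≤ 1 := by
      rw [div_le_one (by positivity)]
      have : (0 : ℝ) ≤ k := Nat.cast_nonneg k
      linarith
    show 0 ≤ 1 - 1 / ((k : ℝ) + 1)
    linarith
  have hs1 : ∀ k, s k < 1 := by
    intro k
    have h2 : (0 : ℝ) < 1 / ((k : ℝ) + 1) := by positivity
    show 1 - 1 / ((k : ℝ) + 1) < 1
    linarith
  have hslim : Tendsto s atTop (𝓝 1) := by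
    have h2 := (tendsto_one_div_add_atTop_nhds_zero_nat (𝕜 := ℝ)).const_sub 1
    rwa [sub_zero] at h2
  refine ⟨fun k => γ (s k), fun k => ?_, fun z => ?_⟩
  · refine ⟨fun r => γ (r * s k), ContFam.comp c (continuous_id.mul continuous_const), ?_, ?_,
      fun r hr0 hr1 => h _ (mul_nonneg hr0 (hs0 k)) ?_⟩
    · show γ (0 * s k) = τ
      rw [zero_mul, h0]
    · show γ (1 * s k) = γ (s k)
      rw [one_mul]
    · have := mul_le_mul_of_nonneg_right hr1 (hs0 k)
      have := hs1 k
      linarith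
  · rw [Metric.tendstoLocallyUniformlyOn_iff]
    intro ε hε y hy
    have hc := (c z).continuousAt (x := ((1 : ℝ), y))
      ((isOpen_univ.prod (chartAt (E d) z).open_target).mem_nhds ⟨trivial, hy⟩)
    have h2 := (Metric.continuousAt_iff'.1 hc) (ε / 2) (half_pos hε)
    rw [nhds_prod_eq, Filter.eventually_prod_iff] at h2
    obtain ⟨pa, ha, pb', hb, hab⟩ := h2
    refine ⟨{y | pb' y}, mem_nhdsWithin_of_mem_nhds hb, ?_⟩
    filter_upwards [hslim.eventually ha] with k hk y' hy'
    have e1 : dist (pb (chartAt (E d) z).symm (γ (s k)) y')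
        (pb (chartAt (E d) z).symm (γ 1) y) < ε / 2 := hab hk hy'
    have e2 : dist (pb (chartAt (E d) z).symm (γ 1) y')
        (pb (chartAt (E d) z).symm (γ 1) y) < ε / 2 := hab ha.self_of_nhds hy'
    rw [h1] at e1 e2
    calc dist (pb (chartAt (E d) z).symm σ y') (pb (chartAt (E d) z).symm (γ (s k)) y')
        ≤ dist (pb (chartAt (E d) z).symm σ y') (pb (chartAt (E d) z).symm σ y) +
          dist (pb (chartAt (E d) z).symm (γ (s k)) y') (pb (chartAt (E d) z).symm σ y) :=
            dist_triangle_right _ _ _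
      _ < ε / 2 + ε / 2 := add_lt_add e2 e1
      _ = ε := add_halves ε

/-- the main theorem -/
theorem canonSeq [CompactSpace X] [T2Space X] (hd : d = 2 * (m + 1)) {vol : Top d m X}
    (hvol : IsVol vol) {σ : Form d X 2} (hσ : Wk vol σ) :
    ∃ τ₀ : Form d X 2, Ps vol τ₀ ∧ Df vol τ₀ σ ∧
      ∀ τ : Form d X 2, Ps vol τ → List.TFAE [Jn (Ps vol) τ τ₀, Df vol τ σ, Jn (Wk vol) τ σ,
        Sq vol τ σ] := by
  obtain ⟨τ₀, h1, h2, h3⟩ := canon hd hvol hσ
  refine ⟨τ₀, h1, h2, fun τ hτ => ?_⟩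
  have h := h3 τ hτ
  tfae_have 1 ↔ 2 := h.out 0 1
  tfae_have 2 ↔ 3 := h.out 1 2
  tfae_have 2 → 4 := Df.sq
  tfae_have 4 → 1 := fun h4 => (h.out 0 3).2 (Sq.lm hσ.1 h4)
  tfae_finish

end

end Pool.Agent.K3h41.SYH
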